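import Mathlib
import Pool.Agent.Work.MP_9d0e17_ap.Interface

set_option autoImplicit false

namespace Pool.Agent.Work.AP90.helper23

open Finset Pool.Agent.Paley67 Pool.Agent.Work.AP90 ComplexConjugate

theorem norm_psi (p : ℕ) [Fact p.Prime] (a : ZMod p) : ‖psi p a‖ = 1 :=
  AddChar.norm_apply (psi p) a

theorem psi_close_nat (p : ℕ) [Fact p.Prime] (k : ℕ) :
    ‖psi p (k : ZMod p) - 1‖ ≤ 2 * Real.pi * k / p := by
  have h1 : psi p (k : ZMod p) = Complex.exp (Complex.I * ((2 * Real.pi * k / p : ℝ) : ℂ)) := by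
    have h := ZMod.stdAddChar_coe (N := p) (k : ℤ)
    rw [Int.cast_natCast] at h
    rw [show psi p (k : ZMod p) = ZMod.stdAddChar (k : ZMod p) from rfl, h]
    congr 1
    push_cast
    ring
  rw [h1]
  refine (Real.norm_exp_I_mul_ofReal_sub_one_le).trans ?_
  rw [Real.norm_eq_abs, abs_of_nonneg (by positivity)]

theorem norm_chi_le (p : ℕ) [Fact p.Prime] (a : ZMod p) : ‖((chi p a : ℤ) : ℂ)‖ ≤ 1 := by
  rcases eq_or_ne a 0 with rfl | ha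
  · have : chi p 0 = 0 := quadraticChar_zero
    rw [this]; simp
  · have : chi p a = 1 ∨ chi p a = -1 := quadraticChar_dichotomy ha
    rcases this with h | h <;> rw [h] <;> simp

/-- Parseval, real form. -/
theorem parseval_real (p : ℕ) [Fact p.Prime] (S : Finset (ZMod p)) (x : ZMod p → ℂ) :
    ∑ r : ZMod p, ‖hat S x r‖ ^ 2 = p * nn S x := by
  have h := parseval S x
  have h1 : ((∑ r : ZMod p, ‖hat S x r‖ ^ 2 : ℝ) : ℂ) = ((p * nn S x : ℝ) : ℂ) := by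
    unfold nn
    push_cast
    exact h
  exact Complex.ofReal_injective h1

/-- The demodulated transform. -/
noncomputable def UU {p : ℕ} [Fact p.Prime] (S : Finset (ZMod p)) (c : ZMod p) (x : ZMod p → ℂ)
    (r : ZMod p) : ℂ := psi p (-(r * c)) * hat S x r

theorem norm_UU {p : ℕ} [Fact p.Prime] (S : Finset (ZMod p)) (c : ZMod p) (x : ZMod p → ℂ)
    (r : ZMod p) : ‖UU S c x r‖ = ‖hat S x r‖ := by
  unfold UU
  rw [norm_mul, norm_psi, one_mul]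

theorem hat_eq {p : ℕ} [Fact p.Prime] (S : Finset (ZMod p)) (c : ZMod p) (x : ZMod p → ℂ)
    (r : ZMod p) : hat S x r = psi p (r * c) * UU S c x r := by
  unfold UU
  rw [← mul_assoc, ← AddChar.map_add_eq_mul, add_neg_cancel, AddChar.map_zero_eq_one, one_mul]

theorem sum_UU {p : ℕ} [Fact p.Prime] (S : Finset (ZMod p)) (c : ZMod p) (x : ZMod p → ℂ) :
    ∑ r : ZMod p, ‖UU S c x r‖ ^ 2 = p * nn S x := by
  rw [← parseval_real]
  exact sum_congr rfl fun r _ => by rw [norm_UU]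

theorem sum_UU_shift {p : ℕ} [Fact p.Prime] (S : Finset (ZMod p)) (c : ZMod p) (x : ZMod p → ℂ)
    (h : ZMod p) : ∑ r : ZMod p, ‖UU S c x (r + h)‖ ^ 2 = p * nn S x := by
  rw [← sum_UU S c x]
  exact Equiv.sum_comp (Equiv.addRight h) fun r => ‖UU S c x r‖ ^ 2

theorem UU_diff {p : ℕ} [Fact p.Prime] (S : Finset (ZMod p)) (c : ZMod p) (x : ZMod p → ℂ)
    (r h : ZMod p) : UU S c x (r + h) - UU S c x r =
      psi p (-(r * c)) * hat S (fun a => (psi p (h * (a - c)) - 1) * x a) r := by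
  unfold UU hat
  rw [mul_sum, mul_sum, mul_sum, ← sum_sub_distrib]
  refine sum_congr rfl fun a _ => ?_
  have h1 : psi p (-((r + h) * c)) * psi p ((r + h) * a) =
      psi p (-(r * c)) * psi p (r * a) * psi p (h * (a - c)) := by
    rw [← AddChar.map_add_eq_mul, ← AddChar.map_add_eq_mul, ← AddChar.map_add_eq_mul]
    congr 1
    ring
  calc psi p (-((r + h) * c)) * (psi p ((r + h) * a) * x a) -
        psi p (-(r * c)) * (psi p (r * a) * x a) =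
      (psi p (-((r + h) * c)) * psi p ((r + h) * a)) * x a -
        psi p (-(r * c)) * (psi p (r * a) * x a) := by ring
    _ = psi p (-(r * c)) * (psi p (r * a) * ((psi p (h * (a - c)) - 1) * x a)) := by
        rw [h1]; ring

theorem sum_diff {p : ℕ} [hp : Fact p.Prime] (S : Finset (ZMod p)) (c : ZMod p) (x : ZMod p → ℂ)
    (L N h : ℕ) (hh : h ≤ N) (hS : ∀ a ∈ S, ∃ i : ℕ, i < L ∧ a = c + (i : ZMod p)) :
    ∑ r : ZMod p, ‖UU S c x (r + (h : ZMod p)) - UU S c x r‖ ^ 2 ≤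
      p * ((2 * Real.pi * (N * L) / p) ^ 2 * nn S x) := by
  have hp0 : (0 : ℝ) < p := by exact_mod_cast hp.out.pos
  have h1 : ∀ r : ZMod p, ‖UU S c x (r + (h : ZMod p)) - UU S c x r‖ ^ 2 =
      ‖hat S (fun a => (psi p ((h : ZMod p) * (a - c)) - 1) * x a) r‖ ^ 2 := by
    intro r
    rw [UU_diff, norm_mul, norm_psi, one_mul]
  rw [sum_congr rfl fun r _ => h1 r, parseval_real]
  apply mul_le_mul_of_nonneg_left _ hp0.le
  unfold nn
  rw [mul_sum]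
  refine sum_le_sum fun a ha => ?_
  obtain ⟨i, hi, hai⟩ := hS a ha
  rw [norm_mul, mul_pow]
  apply mul_le_mul_of_nonneg_right _ (sq_nonneg _)
  apply pow_le_pow_left₀ (norm_nonneg _)
  have h2 : (h : ZMod p) * (a - c) = ((h * i : ℕ) : ZMod p) := by
    rw [hai]; push_cast; ring
  rw [h2]
  refine (psi_close_nat p (h * i)).trans ?_
  apply div_le_div_of_nonneg_right _ hp0.le
  apply mul_le_mul_of_nonneg_left _ (by positivity)
  exact_mod_cast Nat.mul_le_mul hh hi.le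

theorem UU_sup {p : ℕ} [Fact p.Prime] (S : Finset (ZMod p)) (c : ZMod p) (x : ZMod p → ℂ)
    (r : ZMod p) : ‖UU S c x r‖ ≤ Real.sqrt S.card * Real.sqrt (nn S x) := by
  rw [norm_UU]
  have h1 : ‖hat S x r‖ ≤ ∑ a ∈ S, ‖x a‖ := by
    unfold hat
    refine (norm_sum_le _ _).trans (sum_le_sum fun a _ => ?_)
    rw [norm_mul, norm_psi, one_mul]
  have h2 : (∑ a ∈ S, ‖x a‖) ^ 2 ≤ S.card * ∑ a ∈ S, ‖x a‖ ^ 2 := sq_sum_le_card_mul_sum_sq
  rw [← Real.sqrt_mul (Nat.cast_nonneg _)]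
  apply Real.le_sqrt_of_sq_le
  exact (pow_le_pow_left₀ (norm_nonneg _) h1 2).trans h2

theorem SS_le {p : ℕ} [Fact p.Prime] (c y : ZMod p) (N : ℕ) : ‖SS p c y N‖ ≤ N := by
  unfold SS
  refine (norm_sum_le _ _).trans ?_
  have h1 : ∑ n ∈ Icc 1 N, ‖((chi p (y + (n : ZMod p)) : ℤ) : ℂ) * psi p (c * (n : ZMod p))‖ ≤
      ∑ _n ∈ Icc 1 N, (1 : ℝ) := by
    refine sum_le_sum fun n _ => ?_
    rw [norm_mul, norm_psi, mul_one]
    exact norm_chi_le p _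
  refine h1.trans ?_
  rw [sum_const, Nat.card_Icc, Nat.add_sub_cancel, nsmul_eq_mul, mul_one]

/-- The translated cross term. -/
theorem cross_shift {p : ℕ} [Fact p.Prime] (S₁ S₂ : Finset (ZMod p)) (c₁ c₂ : ZMod p)
    (x : ZMod p → ℂ) (h : ZMod p) :
    cross S₁ S₂ x = ∑ r : ZMod p, ((chi p (r + h) : ℤ) : ℂ) * psi p ((r + h) * (c₁ - c₂)) *
      (UU S₁ c₁ x (r + h) * conj (UU S₂ c₂ x (r + h))) := by
  have h1 : cross S₁ S₂ x = ∑ r : ZMod p, ((chi p r : ℤ) : ℂ) * psi p (r * (c₁ - c₂)) *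
      (UU S₁ c₁ x r * conj (UU S₂ c₂ x r)) := by
    unfold cross
    refine sum_congr rfl fun r _ => ?_
    rw [hat_eq S₁ c₁, hat_eq S₂ c₂, map_mul (starRingEnd ℂ), ← AddChar.map_neg_eq_conj]
    have h2 : psi p (r * (c₁ - c₂)) = psi p (r * c₁) * psi p (-(r * c₂)) := by
      rw [← AddChar.map_add_eq_mul]; congr 1; ring
    rw [h2]
    ring
  rw [h1]
  exact (Equiv.sum_comp (Equiv.addRight h) fun r => ((chi p r : ℤ) : ℂ) *
    psi p (r * (c₁ - c₂)) * (UU S₁ c₁ x r * conj (UU S₂ c₂ x r))).symm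

/-- The error of one shift. -/
theorem shift_err {p : ℕ} [hp : Fact p.Prime] (S₁ S₂ : Finset (ZMod p)) (c₁ c₂ : ZMod p)
    (x : ZMod p → ℂ) (L N h : ℕ) (hh : h ≤ N)
    (hS₁ : ∀ a ∈ S₁, ∃ i : ℕ, i < L ∧ a = c₁ + (i : ZMod p))
    (hS₂ : ∀ a ∈ S₂, ∃ i : ℕ, i < L ∧ a = c₂ + (i : ZMod p)) :
    ‖cross S₁ S₂ x - ∑ r : ZMod p, ((chi p (r + (h : ZMod p)) : ℤ) : ℂ) *
        psi p ((r + (h : ZMod p)) * (c₁ - c₂)) * (UU S₁ c₁ x r * conj (UU S₂ c₂ x r))‖ ≤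
      4 * Real.pi * N * L * (Real.sqrt (nn S₁ x) * Real.sqrt (nn S₂ x)) := by
  have hp0 : (0 : ℝ) < p := by exact_mod_cast hp.out.pos
  rw [cross_shift S₁ S₂ c₁ c₂ x (h : ZMod p), ← sum_sub_distrib]
  refine (norm_sum_le _ _).trans ?_
  have h1 : ∀ r : ZMod p, ‖((chi p (r + (h : ZMod p)) : ℤ) : ℂ) *
        psi p ((r + (h : ZMod p)) * (c₁ - c₂)) *
        (UU S₁ c₁ x (r + (h : ZMod p)) * conj (UU S₂ c₂ x (r + (h : ZMod p)))) -
      ((chi p (r + (h : ZMod p)) : ℤ) : ℂ) *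
        psi p ((r + (h : ZMod p)) * (c₁ - c₂)) * (UU S₁ c₁ x r * conj (UU S₂ c₂ x r))‖ ≤
      ‖UU S₁ c₁ x (r + (h : ZMod p)) - UU S₁ c₁ x r‖ * ‖UU S₂ c₂ x (r + (h : ZMod p))‖ +
      ‖UU S₁ c₁ x r‖ * ‖UU S₂ c₂ x (r + (h : ZMod p)) - UU S₂ c₂ x r‖ := by
    intro r
    rw [← mul_sub, norm_mul, norm_mul, norm_psi, mul_one]
    have h2 : UU S₁ c₁ x (r + (h : ZMod p)) * conj (UU S₂ c₂ x (r + (h : ZMod p))) -
        UU S₁ c₁ x r * conj (UU S₂ c₂ x r) =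
        (UU S₁ c₁ x (r + (h : ZMod p)) - UU S₁ c₁ x r) * conj (UU S₂ c₂ x (r + (h : ZMod p))) +
        UU S₁ c₁ x r * conj (UU S₂ c₂ x (r + (h : ZMod p)) - UU S₂ c₂ x r) := by
      rw [map_sub]; ring
    have h3 : ‖UU S₁ c₁ x (r + (h : ZMod p)) * conj (UU S₂ c₂ x (r + (h : ZMod p))) -
        UU S₁ c₁ x r * conj (UU S₂ c₂ x r)‖ ≤
        ‖UU S₁ c₁ x (r + (h : ZMod p)) - UU S₁ c₁ x r‖ * ‖UU S₂ c₂ x (r + (h : ZMod p))‖ +
        ‖UU S₁ c₁ x r‖ * ‖UU S₂ c₂ x (r + (h : ZMod p)) - UU S₂ c₂ x r‖ := by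
      rw [h2]
      refine (norm_add_le _ _).trans ?_
      rw [norm_mul, norm_mul, Complex.norm_conj, Complex.norm_conj]
    calc _ ≤ 1 * ‖UU S₁ c₁ x (r + (h : ZMod p)) * conj (UU S₂ c₂ x (r + (h : ZMod p))) -
        UU S₁ c₁ x r * conj (UU S₂ c₂ x r)‖ :=
          mul_le_mul_of_nonneg_right (norm_chi_le p _) (norm_nonneg _)
      _ ≤ _ := by rw [one_mul]; exact h3
  refine (sum_le_sum fun r _ => h1 r).trans ?_
  rw [sum_add_distrib]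
  set E : ℝ := 2 * Real.pi * (N * L) / p with hE
  have hE0 : 0 ≤ E := by positivity
  have hn1 : 0 ≤ nn S₁ x := sum_nonneg fun _ _ => sq_nonneg _
  have hn2 : 0 ≤ nn S₂ x := sum_nonneg fun _ _ => sq_nonneg _
  have hsp : Real.sqrt p * Real.sqrt p = p := Real.mul_self_sqrt hp0.le
  have hA : ∀ (S : Finset (ZMod p)) (c : ZMod p),
      (∀ a ∈ S, ∃ i : ℕ, i < L ∧ a = c + (i : ZMod p)) →
      Real.sqrt (∑ r : ZMod p, ‖UU S c x (r + (h : ZMod p)) - UU S c x r‖ ^ 2) ≤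
        Real.sqrt p * (E * Real.sqrt (nn S x)) := by
    intro S c hS
    refine (Real.sqrt_le_sqrt (sum_diff S c x L N h hh hS)).trans ?_
    rw [Real.sqrt_mul hp0.le, Real.sqrt_mul (sq_nonneg _), Real.sqrt_sq hE0]
  have hB1 : Real.sqrt (∑ r : ZMod p, ‖UU S₁ c₁ x r‖ ^ 2) =
      Real.sqrt p * Real.sqrt (nn S₁ x) := by
    rw [sum_UU, Real.sqrt_mul hp0.le]
  have hB2 : Real.sqrt (∑ r : ZMod p, ‖UU S₂ c₂ x (r + (h : ZMod p))‖ ^ 2) =
      Real.sqrt p * Real.sqrt (nn S₂ x) := by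
    rw [sum_UU_shift, Real.sqrt_mul hp0.le]
  have hC1 := (Real.sum_mul_le_sqrt_mul_sqrt univ
    (fun r : ZMod p => ‖UU S₁ c₁ x (r + (h : ZMod p)) - UU S₁ c₁ x r‖)
    (fun r : ZMod p => ‖UU S₂ c₂ x (r + (h : ZMod p))‖)).trans
    (mul_le_mul (hA S₁ c₁ hS₁) hB2.le (Real.sqrt_nonneg _) (by positivity))
  have hC2 := (Real.sum_mul_le_sqrt_mul_sqrt univ (fun r : ZMod p => ‖UU S₁ c₁ x r‖)
    (fun r : ZMod p => ‖UU S₂ c₂ x (r + (h : ZMod p)) - UU S₂ c₂ x r‖)).trans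
    (mul_le_mul hB1.le (hA S₂ c₂ hS₂) (Real.sqrt_nonneg _) (by positivity))
  refine (add_le_add hC1 hC2).trans (le_of_eq ?_)
  have hpE : p * E = 2 * Real.pi * (N * L) := by
    rw [hE]; field_simp
  calc Real.sqrt p * (E * Real.sqrt (nn S₁ x)) * (Real.sqrt p * Real.sqrt (nn S₂ x)) +
        Real.sqrt p * Real.sqrt (nn S₁ x) * (Real.sqrt p * (E * Real.sqrt (nn S₂ x))) =
      2 * ((Real.sqrt p * Real.sqrt p) * E) * (Real.sqrt (nn S₁ x) * Real.sqrt (nn S₂ x)) := by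
        ring
    _ = 4 * Real.pi * N * L * (Real.sqrt (nn S₁ x) * Real.sqrt (nn S₂ x)) := by
        rw [hsp, hpE]; ring

/-- The averaged main term. -/
theorem main_term {p : ℕ} [hp : Fact p.Prime] (S₁ S₂ : Finset (ZMod p)) (c₁ c₂ : ZMod p)
    (x : ZMod p → ℂ) (N : ℕ) :
    ∑ h ∈ Icc 1 N, ∑ r : ZMod p, ((chi p (r + (h : ZMod p)) : ℤ) : ℂ) *
        psi p ((r + (h : ZMod p)) * (c₁ - c₂)) * (UU S₁ c₁ x r * conj (UU S₂ c₂ x r)) =
      ∑ r : ZMod p, psi p (r * (c₁ - c₂)) * (UU S₁ c₁ x r * conj (UU S₂ c₂ x r)) *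
        SS p (c₁ - c₂) r N := by
  rw [sum_comm]
  refine sum_congr rfl fun r _ => ?_
  unfold SS
  rw [mul_sum]
  refine sum_congr rfl fun h _ => ?_
  have h2 : psi p ((r + (h : ZMod p)) * (c₁ - c₂)) =
      psi p (r * (c₁ - c₂)) * psi p ((c₁ - c₂) * (h : ZMod p)) := by
    rw [← AddChar.map_add_eq_mul]; congr 1; ring
  rw [h2]
  ring

theorem main_bound {p : ℕ} [hp : Fact p.Prime] (S₁ S₂ : Finset (ZMod p)) (c₁ c₂ : ZMod p)
    (x : ZMod p → ℂ) (N : ℕ) (τ : ℝ) (hτ : 0 ≤ τ) :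
    ‖∑ r : ZMod p, psi p (r * (c₁ - c₂)) * (UU S₁ c₁ x r * conj (UU S₂ c₂ x r)) *
        SS p (c₁ - c₂) r N‖ ≤
      N * ((τ * p + (univ.filter fun y : ZMod p => N * τ ≤ ‖SS p (c₁ - c₂) y N‖).card *
        Real.sqrt (S₁.card * S₂.card)) * (Real.sqrt (nn S₁ x) * Real.sqrt (nn S₂ x))) := by
  classical
  have hp0 : (0 : ℝ) < p := by exact_mod_cast hp.out.pos
  have hsp : Real.sqrt p * Real.sqrt p = p := Real.mul_self_sqrt hp0.le
  set n1 := Real.sqrt (nn S₁ x) with hn1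
  set n2 := Real.sqrt (nn S₂ x) with hn2
  have hn10 : 0 ≤ n1 := Real.sqrt_nonneg _
  have hn20 : 0 ≤ n2 := Real.sqrt_nonneg _
  refine (norm_sum_le _ _).trans ?_
  have h1 : ∀ r : ZMod p, ‖psi p (r * (c₁ - c₂)) * (UU S₁ c₁ x r * conj (UU S₂ c₂ x r)) *
      SS p (c₁ - c₂) r N‖ ≤ N * τ * (‖UU S₁ c₁ x r‖ * ‖UU S₂ c₂ x r‖) +
        (if N * τ ≤ ‖SS p (c₁ - c₂) r N‖ then
          N * (Real.sqrt (S₁.card * S₂.card) * (n1 * n2)) else 0) := by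
    intro r
    rw [norm_mul, norm_mul, norm_mul, norm_psi, one_mul, Complex.norm_conj]
    have hu0 : 0 ≤ ‖UU S₁ c₁ x r‖ * ‖UU S₂ c₂ x r‖ := by positivity
    split_ifs with hc
    · have h2 : ‖UU S₁ c₁ x r‖ * ‖UU S₂ c₂ x r‖ ≤
          Real.sqrt (S₁.card * S₂.card) * (n1 * n2) := by
        refine (mul_le_mul (UU_sup S₁ c₁ x r) (UU_sup S₂ c₂ x r) (norm_nonneg _)
          (by positivity)).trans (le_of_eq ?_)
        rw [Real.sqrt_mul (Nat.cast_nonneg _)]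
        ring
      have h3 : ‖UU S₁ c₁ x r‖ * ‖UU S₂ c₂ x r‖ * ‖SS p (c₁ - c₂) r N‖ ≤
          (Real.sqrt (S₁.card * S₂.card) * (n1 * n2)) * N :=
        mul_le_mul h2 (SS_le _ _ _) (norm_nonneg _) (by positivity)
      have h4 : 0 ≤ N * τ * (‖UU S₁ c₁ x r‖ * ‖UU S₂ c₂ x r‖) := by positivity
      linarith
    · have h2 : ‖SS p (c₁ - c₂) r N‖ ≤ N * τ := (not_le.1 hc).le
      have h3 := mul_le_mul_of_nonneg_left h2 hu0
      linarith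
  refine (sum_le_sum fun r _ => h1 r).trans ?_
  rw [sum_add_distrib, ← sum_filter, sum_const, nsmul_eq_mul, ← mul_sum]
  have h2 : ∑ r : ZMod p, ‖UU S₁ c₁ x r‖ * ‖UU S₂ c₂ x r‖ ≤ p * (n1 * n2) := by
    refine (Real.sum_mul_le_sqrt_mul_sqrt univ (fun r : ZMod p => ‖UU S₁ c₁ x r‖)
      (fun r : ZMod p => ‖UU S₂ c₂ x r‖)).trans (le_of_eq ?_)
    rw [sum_UU, sum_UU, Real.sqrt_mul hp0.le, Real.sqrt_mul hp0.le]
    calc Real.sqrt p * n1 * (Real.sqrt p * n2) = (Real.sqrt p * Real.sqrt p) * (n1 * n2) := by ring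
      _ = p * (n1 * n2) := by rw [hsp]
  have h3 : N * τ * ∑ r : ZMod p, ‖UU S₁ c₁ x r‖ * ‖UU S₂ c₂ x r‖ ≤ N * τ * (p * (n1 * n2)) :=
    mul_le_mul_of_nonneg_left h2 (by positivity)
  refine (add_le_add_left h3 _).trans (le_of_eq ?_)
  ring

theorem stmt_PAIR : Stmt_PAIR := by
  intro p hp c₁ c₂ L N τ hτ hN S₁ S₂ x hS₁ hS₂
  have hN0 : (0 : ℝ) < N := by exact_mod_cast hN
  set M : ℂ := ∑ h ∈ Icc 1 N, ∑ r : ZMod p, ((chi p (r + (h : ZMod p)) : ℤ) : ℂ) *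
        psi p ((r + (h : ZMod p)) * (c₁ - c₂)) * (UU S₁ c₁ x r * conj (UU S₂ c₂ x r)) with hM
  have h1 : ‖M‖ ≤ N * ((τ * p + (univ.filter fun y : ZMod p =>
      N * τ ≤ ‖SS p (c₁ - c₂) y N‖).card *
        Real.sqrt (S₁.card * S₂.card)) * (Real.sqrt (nn S₁ x) * Real.sqrt (nn S₂ x))) := by
    rw [hM, main_term]
    exact main_bound S₁ S₂ c₁ c₂ x N τ hτ
  have h2 : ‖(N : ℂ) * cross S₁ S₂ x - M‖ ≤
      N * (4 * Real.pi * N * L * (Real.sqrt (nn S₁ x) * Real.sqrt (nn S₂ x))) := by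
    have h3 : (N : ℂ) * cross S₁ S₂ x - M = ∑ h ∈ Icc 1 N, (cross S₁ S₂ x -
        ∑ r : ZMod p, ((chi p (r + (h : ZMod p)) : ℤ) : ℂ) *
        psi p ((r + (h : ZMod p)) * (c₁ - c₂)) * (UU S₁ c₁ x r * conj (UU S₂ c₂ x r))) := by
      rw [sum_sub_distrib, sum_const, Nat.card_Icc, Nat.add_sub_cancel, nsmul_eq_mul]
    rw [h3]
    refine (norm_sum_le _ _).trans ?_
    refine (sum_le_sum fun h hh => shift_err S₁ S₂ c₁ c₂ x L N h (mem_Icc.1 hh).2 hS₁ hS₂).trans ?_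
    rw [sum_const, Nat.card_Icc, Nat.add_sub_cancel, nsmul_eq_mul]
  have h4 : N * ‖cross S₁ S₂ x‖ ≤ ‖M‖ + ‖(N : ℂ) * cross S₁ S₂ x - M‖ := by
    have h5 : N * ‖cross S₁ S₂ x‖ = ‖(N : ℂ) * cross S₁ S₂ x‖ := by
      rw [norm_mul, Complex.norm_natCast]
    rw [h5]
    have h6 : (N : ℂ) * cross S₁ S₂ x = M + ((N : ℂ) * cross S₁ S₂ x - M) := by ring
    calc ‖(N : ℂ) * cross S₁ S₂ x‖ = ‖M + ((N : ℂ) * cross S₁ S₂ x - M)‖ := by rw [← h6]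
      _ ≤ _ := norm_add_le _ _
  have h7 : N * ‖cross S₁ S₂ x‖ ≤ N * ((τ * p + (univ.filter fun y : ZMod p =>
      N * τ ≤ ‖SS p (c₁ - c₂) y N‖).card * Real.sqrt (S₁.card * S₂.card) +
        4 * Real.pi * N * L) * (Real.sqrt (nn S₁ x) * Real.sqrt (nn S₂ x))) := by
    refine (h4.trans (add_le_add h1 h2)).trans (le_of_eq ?_)
    ring
  exact le_of_mul_le_mul_left h7 hN0

end Pool.Agent.Work.AP90.helper23
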