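import Mathlib
import Pool.Agent.Work.MP_9d0e17_ap.Interface

set_option autoImplicit false

namespace Pool.Agent.Work.AP90.helper23

open Finset Pool.Agent.Paley67 Pool.Agent.Work.AP90 ComplexConjugate

theorem nrm_close (p : ℕ) [hp : Fact p.Prime] (hp4 : p % 4 = 1) (S : Finset (ZMod p)) (t : ℝ)
    (w : ℂ) (x : ZMod p → ℂ) (hq : ‖qC S x‖ ≤ t * Real.sqrt p * nn S x) :
    |nrm S w x - (‖w‖ ^ 2 + nn S x)| ≤
      t * nn S x + Real.sqrt (S.card / p) * (‖w‖ ^ 2 + nn S x) := by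
  have hp2 : p ≠ 2 := by omega
  have hp0 : (0 : ℝ) < p := by exact_mod_cast hp.out.pos
  set N := nn S x with hN
  have hN0 : 0 ≤ N := Finset.sum_nonneg fun _ _ => sq_nonneg _
  set r := Real.sqrt p with hr
  have hr0 : 0 < r := Real.sqrt_pos.2 hp0
  have hrr : r * r = p := Real.mul_self_sqrt hp0.le
  have h1 := nrm_eq hp2 S w x
  have h2 : nrm S w x = ‖w‖ ^ 2 + ((w * conj (hat S x 0) + conj w * hat S x 0) / (r : ℂ)).re +
      N + (Gs p * qC S x / p).re := by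
    have h3 := congrArg Complex.re h1
    rw [Complex.ofReal_re, Complex.add_re, Complex.add_re, Complex.add_re] at h3
    rw [h3]
    congr 2
    · congr 1
      rw [← Complex.ofReal_pow, Complex.ofReal_re]
    · rw [hN, nn, Complex.re_sum]
      refine Finset.sum_congr rfl fun a _ => ?_
      rw [← Complex.ofReal_pow, Complex.ofReal_re]
  have h4 : |(Gs p * qC S x / p).re| ≤ t * N := by
    refine (Complex.abs_re_le_norm _).trans ?_
    rw [norm_div, norm_mul, Gs_norm hp4, Complex.norm_natCast, div_le_iff₀ hp0]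
    calc Real.sqrt p * ‖qC S x‖ ≤ r * (t * r * N) := mul_le_mul_of_nonneg_left hq hr0.le
      _ = t * N * (r * r) := by ring
      _ = t * N * p := by rw [hrr]
  have h5 : |((w * conj (hat S x 0) + conj w * hat S x 0) / (r : ℂ)).re| ≤
      2 * (‖w‖ * ‖hat S x 0‖) / r := by
    refine (Complex.abs_re_le_norm _).trans ?_
    rw [norm_div, Complex.norm_real, Real.norm_eq_abs, abs_of_pos hr0]
    apply div_le_div_of_nonneg_right _ hr0.le
    refine (norm_add_le _ _).trans ?_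
    rw [norm_mul, norm_mul, Complex.norm_conj, Complex.norm_conj]
    linarith
  set R := Real.sqrt (S.card / p) with hR
  have hR0 : 0 ≤ R := Real.sqrt_nonneg _
  have hRR : R ^ 2 = S.card / p := Real.sq_sqrt (by positivity)
  have h6 : 2 * (‖w‖ * ‖hat S x 0‖) / r ≤ R * (‖w‖ ^ 2 + N) := by
    have h7 := hat_zero_sq S x
    have hv : ‖hat S x 0‖ / r ≤ R * Real.sqrt N := by
      apply (sq_le_sq₀ (by positivity) (by positivity)).1
      rw [div_pow, mul_pow, Real.sq_sqrt hN0, hRR, div_le_iff₀ (by positivity)]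
      have h10 : r ^ 2 = p := by rw [sq, hrr]
      rw [h10]
      calc ‖hat S x 0‖ ^ 2 ≤ S.card * N := h7
        _ = S.card / p * N * p := by field_simp
    have h8 : 2 * (‖w‖ * ‖hat S x 0‖) / r = 2 * ‖w‖ * (‖hat S x 0‖ / r) := by ring
    rw [h8]
    have h9 : 2 * ‖w‖ * (‖hat S x 0‖ / r) ≤ 2 * ‖w‖ * (R * Real.sqrt N) :=
      mul_le_mul_of_nonneg_left hv (by positivity)
    have h10 : 2 * ‖w‖ * Real.sqrt N ≤ ‖w‖ ^ 2 + N := by
      nlinarith [sq_nonneg (‖w‖ - Real.sqrt N), Real.sq_sqrt hN0]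
    calc 2 * ‖w‖ * (‖hat S x 0‖ / r) ≤ 2 * ‖w‖ * (R * Real.sqrt N) := h9
      _ = R * (2 * ‖w‖ * Real.sqrt N) := by ring
      _ ≤ R * (‖w‖ ^ 2 + N) := mul_le_mul_of_nonneg_left h10 hR0
  have h7 := abs_le.1 h4
  have h8 := abs_le.1 (h5.trans h6)
  rw [h2, abs_le]
  constructor
  · linarith [h7.1, h8.1]
  · linarith [h7.2, h8.2]

/-- BLOCK FRAME, with `0 ≤ t` (needed: for `S = {p}` the hypothesis is empty). -/
theorem frame_nonneg : ∀ (p : ℕ) [Fact p.Prime], p % 4 = 1 → ∀ (S : Finset ℕ) (t : ℝ), 0 ≤ t →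
    S ⊆ range (p + 1) →
    (∀ x : ZMod p → ℂ, ‖qC (resSet p S) x‖ ≤ t * Real.sqrt p * nn (resSet p S) x) →
    ∀ x : ℕ → ℂ,
      |∑ r ∈ (range p).image (fun s => s * s % p), ‖∑ j ∈ S, Ph p r j * x j‖ ^ 2 -
          ∑ j ∈ S, ‖x j‖ ^ 2| ≤
        (t + Real.sqrt ((resSet p S).card / p)) * ∑ j ∈ S, ‖x j‖ ^ 2 := by
  intro p _ hp4 S t ht hS hq x
  rw [frame_nrm S hS x, norm_split S hS x]
  refine (nrm_close p hp4 (resSet p S) t (if p ∈ S then x p else 0) (fun a => x a.val)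
    (hq _)).trans ?_
  have h1 : nn (resSet p S) (fun a => x a.val) = ∑ a ∈ resSet p S, ‖x a.val‖ ^ 2 := rfl
  rw [h1, add_mul]
  have h2 : (0 : ℝ) ≤ ‖(if p ∈ S then x p else 0 : ℂ)‖ ^ 2 := sq_nonneg _
  nlinarith [mul_nonneg ht h2]

end Pool.Agent.Work.AP90.helper23
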